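import Pool.Agent.H34.WB.Extr
import Pool.Agent.H34.WB.Cle
import Pool.Agent.H34.WB.Lei
import Pool.Agent.H97.WB.Inv
import Pool.Agent.H93.WB.Ext
import Pool.Agent.H71.WB.Psd
import Pool.Agent.H10.WB.App

/-!
# The local entropies of the extremal quantum limits of the Walsh-quantized baker's map

Mixtures of quantum limits of the Walsh-quantized baker's map are quantum limits, so that the extremal ones (those which
are no proper mixtures) are the elementary objects. Here: the local entropies of an extremal quantum limit are at least
`(log D) / 2` almost everywhere, **or** there is a number `s < (log D) / 2` such that exactly half of the mass has local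
entropy `s`, and the other half has local entropy at least `log D - s`. (So an extremal quantum limit which is not
concentrated on entropies `≥ (log D) / 2` is half a scar, of one single entropy.)

Proof. For `s < (log D) / 2` let `E` be the set of the points of local entropy at most `s`, and `t` its mass. The state
`ρ` of which `μ` is the diagonal splits as `ρ = (σ + F σ F*) + (ρ - σ - F σ F*)`, with the part `σ` of `ρ` on `E`; the
second summand is positive by the uncertainty principle (modules `Psd`, `Lim`, `Split`), both are invariant, and so
`μ = 2 t μ₁ + (1 - 2 t) μ₂` with quantum limits `μ₁`, `μ₂`, where `2 t μ₁` contains the restriction of `μ` to `E`. If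
`0 < 2 t < 1`, then `μ₁ = μ` by extremality, and `t ≤ 2 t μ(E) = 2 t²`, a contradiction. So the mass of `E` is `0` or
`1/2` for every `s`. The last claim is the inequality for the law of the local entropies (`LocalEntropyLaws`).

Modules: helper34, helper71 (`S_psd`), helper93 (`S_ext`), helper10 (`S_app`), helper97 (`S_inv`).
-/

set_option autoImplicit false

open MeasureTheory Filter Topology Set
open scoped ENNReal
open Pool.Agent.Results.MP_07c750_an.WalshBakerQuantumLimits
open Pool.Agent.H34.WB

noncomputable section

namespace Pool.Agent.Results.MP_07c750_an.ExtremalLimits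

/-- **Extremal quantum limits.** The local entropy of an extremal quantum limit is at least `(log D) / 2` almost
everywhere, or for some `s` in `[0, (log D) / 2)` it is `s` on a set of mass exactly `1/2` and at least `log D - s` on a
set of mass exactly `1/2`. -/
theorem result (D : ℕ) (hD : 2 ≤ D) (μ : Measure (ℤ → Fin D)) [IsProbabilityMeasure μ] (hμ : IsQuantumLimit D μ)
    (hext : ∀ (μ₁ μ₂ : Measure (ℤ → Fin D)) (a b : ℝ≥0∞), IsProbabilityMeasure μ₁ → IsProbabilityMeasure μ₂ →
      IsQuantumLimit D μ₁ → IsQuantumLimit D μ₂ → a ≠ 0 → b ≠ 0 → a + b = 1 → μ = a • μ₁ + b • μ₂ → μ₁ = μ) :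
    (∀ᵐ x ∂μ, ((Real.log D / 2 : ℝ) : EReal) ≤ localEntropy μ x) ∨
    ∃ s : ℝ, 0 ≤ s ∧ s < Real.log D / 2 ∧ μ {x | localEntropy μ x = (s : EReal)} = 1 / 2 ∧
      μ {x | ((Real.log D - s : ℝ) : EReal) ≤ localEntropy μ x} = 1 / 2 := by
  have : NeZero D := ⟨by omega⟩
  exact extremal Pool.Agent.H71.WB.psd Pool.Agent.H93.WB.s_ext s_cle (Pool.Agent.H97.WB.s_inv s_cle) s_lei
    Pool.Agent.H10.WB.s_app hD μ hμ hext

end Pool.Agent.Results.MP_07c750_an.ExtremalLimits
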