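import Pool.Agent.H34.WB.Asm
import Pool.Agent.H50.WB.Count
import Pool.Agent.H34.WB.Quant

/-!
# The laws of the local entropies of the quantum limits of the Walsh-quantized baker's map

The Walsh-quantized baker's map (Schack–Caves, Tracy–Scott, Anantharaman–Nonnenmacher) is the model in which the
entropy method for quantum unique ergodicity was developed: `(ℂ^D)^{⊗ (k+1)}`,
`v₀ ⊗ v₁ ⊗ ⋯ ⊗ v_k ↦ v₁ ⊗ ⋯ ⊗ v_k ⊗ F* v₀`, with the discrete Fourier transform `F` of size `D`; its classical limit is
the shift on the sequences `x : ℤ → Fin D`. Quantum unique ergodicity fails in this model. Anantharaman and Nonnenmacher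
proved that the entropy of every quantum limit is at least `(log D) / 2`, half of the maximum, and that this is sharp.

The local entropy `h_μ(x) = limsup - (1/n) log μ[x 0 … x (n-1)]` of a shift invariant probability measure `μ` is almost
everywhere the entropy of the ergodic component of `x` (Shannon, McMillan, Breiman), so that its law describes how the
entropy is distributed among the ergodic components, and its mean is the Kolmogorov–Sinai entropy. Here the **laws of
the local entropies of all quantum limits are determined**: they are exactly the probability measures `m` on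
`[0, log D]` with `m [0, s] ≤ m [log D - s, log D]` for all `s`. (The bound `(log D) / 2` for the mean follows.)

Proof. *Necessity.* A quantum limit is the diagonal of a translation invariant state of a spin chain which is also
invariant under the Fourier transform at all sites (library theorem `WalshBakerQuantumLimits`), so that the masses of
two sets `A`, `B` of words of length `n` satisfy `μ[A] + μ[B] ≤ 1 + √(#A #B / D ^ n)`, an uncertainty principle for the
bases `e_w` and `F^{⊗ n} e_w` (not only for entropies, as Maassen–Uffink); apply this to the words of mass at least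
`exp (- s n)` and at least `exp (- (log D - s - ε) n)`. *Sufficiency.* The sites have three types: at a site of type `0`
the state is `|0⟩⟨0|`, at a site of type `1` it is `F |0⟩⟨0| F*`, at a site of type `2` it is `1 / D`; the types are read
off from an irrational rotation, whose patterns are of polynomial number, so that they do not contribute to the entropy;
the density of the types `0` and `1` is `1 - x` and `1 - y`, where `(x, y)` is random with both marginals `m / log D` and
`x + y ≥ 1`, and a fair coin exchanges the types `0` and `1`.

The modules were written by helper34 (`H34/WB`) and helper50 (`S_count`).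
-/

set_option autoImplicit false

open MeasureTheory Filter Topology Set
open Pool.Agent.Results.MP_07c750_an.WalshBakerQuantumLimits
open Pool.Agent.H34.WB

noncomputable section

namespace Pool.Agent.Results.MP_07c750_an.LocalEntropyLaws

/-- **The laws of the local entropies of the quantum limits.** (1) The local entropy `h` of a quantum limit `μ` has
values in `[0, log D]`, and `μ {h ≤ s} ≤ μ {h ≥ log D - s}` for all `s`. (2) Every probability measure `m` on
`[0, log D]` with this property is the law of the local entropy of a quantum limit, and for this quantum limit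
`- (1/n) log μ[x 0 … x (n-1)]` converges almost everywhere. -/
theorem result (D : ℕ) (hD : 2 ≤ D) :
    (∀ μ : Measure (ℤ → Fin D), IsProbabilityMeasure μ → IsQuantumLimit D μ →
      Measurable (localEntropy μ) ∧
      (∀ᵐ x ∂μ, 0 ≤ localEntropy μ x ∧ localEntropy μ x ≤ ((Real.log D : ℝ) : EReal)) ∧
      ∀ s : ℝ, μ {x | localEntropy μ x ≤ (s : EReal)} ≤ μ {x | ((Real.log D - s : ℝ) : EReal) ≤ localEntropy μ x}) ∧
    ∀ m : Measure ℝ, IsProbabilityMeasure m →
      m (Icc 0 (Real.log D)) = 1 → (∀ s : ℝ, m (Iic s) ≤ m (Ici (Real.log D - s))) →
      ∃ μ : Measure (ℤ → Fin D), IsProbabilityMeasure μ ∧ IsQuantumLimit D μ ∧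
        μ.map (localEntropy μ) = m.map (fun s : ℝ => (s : EReal)) ∧
        ∀ᵐ x ∂μ, Tendsto (fun n : ℕ => ((info μ n x : ℝ) : EReal)) atTop (𝓝 (localEntropy μ x)) := by
  refine ⟨fun μ hμ hQ => ?_, fun m hm h0 h1 => ?_⟩
  · obtain ⟨ρ, hρ, hd⟩ := (Pool.Agent.Results.MP_07c750_an.WalshBakerQuantumLimits.result D hD μ).1.1 hQ
    exact ⟨(s_meas D μ).2.2.2, s_range D hD μ hμ, s_law D hD μ hμ (s_unc D hD μ hμ ρ hρ hd).1⟩
  · exact law_exists s_quant Pool.Agent.H50.WB.s_count D hD m hm h0 h1

end Pool.Agent.Results.MP_07c750_an.LocalEntropyLaws
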