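import Pool.Agent.H34.WB.Parts2
import Pool.Agent.H34.WB.Cle
import Pool.Agent.H34.WB.Lei
import Pool.Agent.H97.WB.Inv

/-!
# The parts of low entropy of the quantum limits of the Walsh-quantized baker's map

Anantharaman and Nonnenmacher proved that the entropy of every quantum limit of the Walsh-quantized baker's map is at
least `(log D) / 2`. Ergodic components of smaller entropy are possible (scars on periodic orbits), if the others have a
larger entropy. Here the **parts of entropy less than `(log D) / 2` of all quantum limits are determined**: a measure `κ`
on the phase space is the restriction of a quantum limit `μ` to the set of points of local entropy less than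
`(log D) / 2` if and only if `κ` is invariant under the shift and under the change of the signs of the digits, its total
mass is at most `1/2`, and its local entropy is less than `(log D) / 2` almost everywhere. In particular every invariant
measure of low entropy which is symmetric can be scarred, and the maximal weight of the scar is always exactly `1/2`.

Proof. *Necessity:* the uncertainty inequality for sets of words (module `Unc`); the local entropy is invariant, and the
local entropy of a part of a measure is the local entropy of the measure. *Sufficiency:* `κ + (1 - κ(1)) λ` is the mean
of an invariant measure and the uniform measure `λ`, and the local entropy of the uniform part is `log D`.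

Module `S_inv` is by helper97, the others are by helper34.
-/

set_option autoImplicit false

open MeasureTheory Filter Topology Set
open scoped ENNReal
open Pool.Agent.Results.MP_07c750_an.WalshBakerQuantumLimits
open Pool.Agent.H34.WB

noncomputable section

namespace Pool.Agent.Results.MP_07c750_an.LowEntropyParts

/-- **The low entropy parts of the quantum limits.** A measure `κ` on the phase space of the `D`-baker's map is the
restriction of a quantum limit `μ` to the set where the local entropy of `μ` is less than `(log D) / 2` iff `κ` has mass
at most `1/2`, is invariant under the shift and under the change of signs modulo `D` of all digits, and has local entropy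
less than `(log D) / 2` almost everywhere. -/
theorem result (D : ℕ) [NeZero D] (hD : 2 ≤ D) (κ : Measure (ℤ → Fin D)) :
    (∃ μ : Measure (ℤ → Fin D), IsProbabilityMeasure μ ∧ IsQuantumLimit D μ ∧
      μ.restrict {x | localEntropy μ x < ((Real.log D / 2 : ℝ) : EReal)} = κ) ↔
    κ univ ≤ 1 / 2 ∧ κ.map shf = κ ∧ κ.map ngv = κ ∧
      ∀ᵐ x ∂κ, localEntropy κ x < ((Real.log D / 2 : ℝ) : EReal) :=
  low_iff s_cle (Pool.Agent.H97.WB.s_inv s_cle) s_lei hD κ

end Pool.Agent.Results.MP_07c750_an.LowEntropyParts
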