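import Pool.Agent.H34.WB.Parts2
import Pool.Agent.H34.WB.Cle
import Pool.Agent.H34.WB.Lei
import Pool.Agent.H97.WB.Inv
import Pool.Agent.H93.WB.Ext
import Pool.Agent.H93.WB.Scar
import Pool.Agent.H71.WB.Psd
import Pool.Agent.H10.WB.App

/-!
# The structure of the quantum limits of the Walsh-quantized baker's map with a part of zero entropy

Quantum limits of the Walsh-quantized baker's map can charge periodic orbits, and more generally sets of zero entropy
(scars). Anantharaman and Nonnenmacher proved that the weight of the pure point part is at most the weight of the uniform
measure (Faure and Nonnenmacher: cat maps). Here is the exact structure: **a probability measure is a quantum limit iff it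
is `κ + t λ + (1 - 2 t) ν`** with the uniform measure `λ`, an invariant measure `κ` of zero entropy and of mass
`t ≤ 1/2` which is symmetric under the change of the signs of the digits, and a quantum limit `ν` without zero entropy
part; `κ` is the zero entropy part of the quantum limit. So a scar of mass `t` forces exactly `t` times the uniform
measure, and what remains is again a quantum limit. In particular a quantum limit with a scar of mass `1/2` is
`κ + λ / 2`.

Proof. A quantum limit `μ` is the diagonal of a state `ρ` of a spin chain which is invariant under translations and under
the Fourier transform at all sites. The reduced density matrices of `ρ` conditioned on a far window to show a word of a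
small set `A n`, where `{word n ∈ A n}` approximates the set `E` of points of zero entropy, converge to a positive
functional `σ` with diagonal `κ = μ|E` (module `Lim`). By the uncertainty principle, a positive operator inequality for
a small set of words and its Fourier transform (`Psd`), `ρ - σ - F σ F* ≥ 0`; it is again invariant. The diagonal of
`(σ + F σ F*) / (2 t)` is a quantum limit `μ₁` with zero entropy part at least `1/2`, so that `μ₁ ≥ λ / 2` (`Scar`:
the words which contain too few copies of a given word are exponentially few, so that they have no mass in the Fourier
dual of zero entropy), and `μ₁ = κ / (2 t) + λ / 2` since the masses add up.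

Modules: helper34 (plan, `Lim`, `Conj`, `Split`, `Struct`, `Res`, `Parts`, …), helper71 (`S_psd`), helper93 (`S_scar`,
`S_ext`), helper10 (`S_app`), helper97 (`S_inv`).
-/

set_option autoImplicit false

open MeasureTheory Filter Topology Set
open scoped ENNReal
open Pool.Agent.Results.MP_07c750_an.WalshBakerQuantumLimits
open Pool.Agent.H34.WB

noncomputable section

namespace Pool.Agent.Results.MP_07c750_an.ZeroEntropyPart

/-- **Structure theorem.** A probability measure `μ` is a quantum limit iff `μ = κ + t λ + (1 - 2 t) ν`, where `λ` is the
uniform measure, `κ` is a measure of mass `t ≤ 1/2` and of zero local entropy, invariant under the shift and under the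
change of signs, and `ν` is a quantum limit with positive local entropy almost everywhere (`IsSplit D μ κ ν`). Then `κ`
is the restriction of `μ` to the set of the points of zero local entropy. -/
theorem result (D : ℕ) [NeZero D] (hD : 2 ≤ D) (μ : Measure (ℤ → Fin D)) [IsProbabilityMeasure μ] :
    (IsQuantumLimit D μ ↔ ∃ κ ν : Measure (ℤ → Fin D), IsSplit D μ κ ν) ∧
    ∀ κ ν : Measure (ℤ → Fin D), IsSplit D μ κ ν → κ = μ.restrict {x | localEntropy μ x = 0} :=
  ⟨zero_iff Pool.Agent.H71.WB.psd Pool.Agent.H93.WB.s_ext s_cle (Pool.Agent.H97.WB.s_inv s_cle) s_lei
    Pool.Agent.H10.WB.s_app Pool.Agent.H93.WB.s_scar hD μ, fun _ _ h => split_part hD h⟩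

end Pool.Agent.Results.MP_07c750_an.ZeroEntropyPart
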